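import Pool.Agent.R906.STreeC
set_option autoImplicit false

/-!
# Spherical parking functions by degree and surface inversions of uprooted trees

For every `n ≥ 1` and `k ≥ 0` the number of spherical parking functions of length `n` and degree
`C(n,2) - k + 1` equals the number of uprooted trees on `n` labelled vertices with exactly `k`
surface inversions.
-/

namespace Pool.Agent.Results.MP_dc922b_co.SurfaceInversions

/-- A sequence `a` of `n` natural numbers is a spherical parking function if its nondecreasing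
rearrangement `c = a ∘ Tuple.sort a` has `c_1 = 1` and `c_j < j` for `2 ≤ j ≤ n`
(here `j = i + 1` with `i : Fin n`). -/
def Spherical {n : ℕ} (a : Fin n → ℕ) : Prop :=
  ∀ i : Fin n, ((i : ℕ) = 0 → a (Tuple.sort a i) = 1) ∧
    (1 ≤ (i : ℕ) → a (Tuple.sort a i) < (i : ℕ) + 1)

/-- A rooted tree with vertex set `Fin n`, given by its root and its parent map (the root is its
own parent and every vertex reaches the root by passing to parents). -/
structure RootedTree (n : ℕ) where
  /-- the root -/
  root : Fin n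
  /-- the parent map -/
  parent : Fin n → Fin n
  parent_root : parent root = root
  reaches_root : ∀ v, ∃ k : ℕ, parent^[k] v = root

/-- `β` is a descendant of `α`: `β ≠ α` and `α` lies on the path from `β` to the root. -/
def RootedTree.Descendant {n : ℕ} (T : RootedTree n) (β α : Fin n) : Prop :=
  β ≠ α ∧ ∃ k : ℕ, T.parent^[k] β = α

/-- The root is larger than each of its children. -/
def RootedTree.Uprooted {n : ℕ} (T : RootedTree n) : Prop :=
  ∀ v, v ≠ T.root → T.parent v = T.root → v < T.root

/-- The number of surface inversions: pairs `(α, β)` of vertices different from the root, with `β`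
a descendant of `α` and `α > β`. -/
noncomputable def RootedTree.surfaceInversions {n : ℕ} (T : RootedTree n) : ℕ :=
  Nat.card {z : Fin n × Fin n // z.1 ≠ T.root ∧ z.2 ≠ T.root ∧ T.Descendant z.2 z.1 ∧ z.2 < z.1}

open Pool.Agent.R906.SP Polynomial

open scoped Classical

theorem sort_bij {n : ℕ} (a : Fin n → ℕ) (P : ℕ → Prop) [DecidablePred P] :
    (Finset.univ.filter (fun x => P (a x))).card =
      (Finset.univ.filter (fun i => P (a (Tuple.sort a i)))).card := by
  symm
  apply Finset.card_bij (fun i _ => Tuple.sort a i)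
  · intro i hi
    rw [Finset.mem_filter] at hi ⊢
    exact ⟨Finset.mem_univ _, hi.2⟩
  · intro i _ j _ h
    exact (Tuple.sort a).injective h
  · intro x hx
    rw [Finset.mem_filter] at hx
    refine ⟨(Tuple.sort a).symm x, ?_, ?_⟩
    · rw [Finset.mem_filter, Equiv.apply_symm_apply]
      exact ⟨Finset.mem_univ _, hx.2⟩
    · rw [Equiv.apply_symm_apply]

theorem card_le_fin {n m : ℕ} : (Finset.univ.filter (fun i : Fin n => (i : ℕ) < m)).card = min m n := by
  rw [Fin.card_filter_val_lt, min_comm]

theorem spherical_iff {n : ℕ} (hn : 1 ≤ n) (a : Fin n → ℕ) : Spherical a ↔ Prm Finset.univ a := by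
  have hmono : Monotone (a ∘ Tuple.sort a) := Tuple.monotone_sort a
  unfold Prm
  constructor
  · intro h
    have h0 := (h ⟨0, hn⟩).1 rfl
    constructor
    · intro x _
      have h1 := hmono (show (⟨0, hn⟩ : Fin n) ≤ (Tuple.sort a).symm x from
        Fin.le_def.2 (Nat.zero_le _))
      simp only [Function.comp_apply, Equiv.apply_symm_apply] at h1
      omega
    · intro i hi
      rw [Finset.card_univ, Fintype.card_fin, sort_bij a (fun y => y ≤ i), ← card_le_fin]
      apply Finset.card_le_card
      intro j hj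
      rw [Finset.mem_filter] at hj ⊢
      refine ⟨Finset.mem_univ _, ?_⟩
      rcases Nat.eq_zero_or_pos (j : ℕ) with hj0 | hj0
      · rw [(h j).1 hj0]; exact hi
      · have := (h j).2 hj0
        omega
  · rintro ⟨h1, h2⟩ i
    constructor
    · intro hi
      have ha := h1 (Tuple.sort a i) (Finset.mem_univ _)
      by_contra hne
      have h3 := h2 1 le_rfl
      rw [Finset.card_univ, Fintype.card_fin, sort_bij a (fun y => y ≤ 1)] at h3
      have h4 : (Finset.univ.filter (fun i : Fin n => a (Tuple.sort a i) ≤ 1)) = ∅ := by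
        rw [Finset.filter_eq_empty_iff]
        intro j _ hj
        have h5 := hmono (show i ≤ j from Fin.le_def.2 (by omega))
        simp only [Function.comp_apply] at h5
        omega
      rw [h4, Finset.card_empty] at h3
      have : 1 ≤ min (1 + 1) n := le_min (by norm_num) hn
      omega
    · intro hi
      by_contra hcon
      push Not at hcon
      have h3 := h2 i hi
      rw [Finset.card_univ, Fintype.card_fin, sort_bij a (fun y => y ≤ (i : ℕ))] at h3
      have h4 : (Finset.univ.filter (fun j : Fin n => a (Tuple.sort a j) ≤ (i : ℕ))) ⊆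
          Finset.univ.filter (fun j : Fin n => (j : ℕ) < i) := by
        intro j hj
        rw [Finset.mem_filter] at hj ⊢
        refine ⟨Finset.mem_univ _, ?_⟩
        by_contra hij
        have h5 := hmono (show i ≤ j from Fin.le_def.2 (by omega))
        simp only [Function.comp_apply] at h5
        omega
      have h5 := Finset.card_le_card h4
      rw [card_le_fin] at h5
      have := i.isLt
      rw [min_eq_left (by omega)] at h3
      have := min_le_left (i : ℕ) n
      omega

theorem spherical_sum_le {n : ℕ} (hn : 1 ≤ n) {a : Fin n → ℕ} (h : Spherical a) :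
    ∑ i, a i ≤ n.choose 2 + 1 := by
  obtain ⟨m, rfl⟩ := Nat.exists_eq_add_of_le hn
  rw [← Equiv.sum_comp (Tuple.sort a) a]
  have h1 : ∀ i : Fin (1 + m), a (Tuple.sort a i) ≤ (i : ℕ) + (if (i : ℕ) = 0 then 1 else 0) := by
    intro i
    rcases Nat.eq_zero_or_pos (i : ℕ) with h0 | h0
    · rw [(h i).1 h0, if_pos h0]; omega
    · have := (h i).2 h0
      omega
  refine (Finset.sum_le_sum (fun i _ => h1 i)).trans ?_
  rw [Finset.sum_add_distrib]
  apply Nat.add_le_add
  · rw [Fin.sum_univ_eq_sum_range (fun i => i) (1 + m), Finset.sum_range_id, Nat.choose_two_right]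
  · rw [Fin.sum_univ_eq_sum_range (fun i => if i = 0 then 1 else 0) (1 + m)]
    simp

theorem surf_eq {n : ℕ} (T : RootedTree n) : T.surfaceInversions = inv' T.root T.parent := by
  unfold RootedTree.surfaceInversions inv'
  rw [Nat.subtype_card]
  rintro ⟨α, β⟩
  rw [Finset.mem_filter]
  simp only [Finset.mem_univ, true_and]
  unfold RootedTree.Descendant
  constructor
  · rintro ⟨h1, h2, h3⟩
    refine ⟨h1, ?_, ⟨h2.ne, h3⟩, h2⟩
    rintro rfl
    exact h1 (Anc.fix T.parent_root h3)
  · rintro ⟨h1, -, ⟨-, h3⟩, h4⟩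
    exact ⟨h1, h4, h3⟩

/-- the finite set of pairs (root, parent map) of uprooted trees -/
noncomputable def Tset (n : ℕ) : Finset ((_ : Fin n) × (Fin n → Fin n)) :=
  Finset.univ.sigma (fun r => G Finset.univ r (Finset.univ.filter (fun x => x < r)))

theorem mem_Tf {n k : ℕ} {z : (_ : Fin n) × (Fin n → Fin n)} :
    z ∈ (Tset n).filter (fun z => inv' z.1 z.2 = k) ↔
      IsG Finset.univ z.1 (Finset.univ.filter (fun x => x < z.1)) z.2 ∧ inv' z.1 z.2 = k := by
  unfold Tset
  rw [Finset.mem_filter, Finset.mem_sigma, mem_G]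
  simp

theorem card_trees (n k : ℕ) : Nat.card {T : RootedTree n // T.Uprooted ∧ T.surfaceInversions = k} =
    ((Tset n).filter (fun z => inv' z.1 z.2 = k)).card := by
  rw [← Nat.subtype_card (p := fun z => z ∈ (Tset n).filter (fun z => inv' z.1 z.2 = k)) _
    (fun x => Iff.rfl)]
  apply Nat.card_congr
  refine ⟨fun T => ⟨⟨T.1.root, T.1.parent⟩, ?_⟩, fun z => ⟨⟨z.1.1, z.1.2, ?_, ?_⟩, ?_, ?_⟩, ?_, ?_⟩
  · rw [mem_Tf]
    refine ⟨⟨fun x hx => absurd (Finset.mem_univ x) hx,
      fun x _ => Finset.mem_univ _, T.1.parent_root, fun x _ => T.1.reaches_root x, ?_⟩, ?_⟩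
    · intro x _ hx1 hx2
      rw [Finset.mem_filter]
      exact ⟨Finset.mem_univ _, T.2.1 x hx1 hx2⟩
    · rw [← surf_eq]; exact T.2.2
  · exact (mem_Tf.1 z.2).1.2.2.1
  · exact fun v => (mem_Tf.1 z.2).1.2.2.2.1 v (Finset.mem_univ v)
  · intro v hv1 hv2
    have := (mem_Tf.1 z.2).1.2.2.2.2 v (Finset.mem_univ v) hv1 hv2
    rw [Finset.mem_filter] at this
    exact this.2
  · rw [surf_eq]
    exact (mem_Tf.1 z.2).2
  · intro T
    rfl
  · intro z
    rfl

theorem coeff_sum {α : Type} (s : Finset α) (f : α → ℕ) (k : ℕ) :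
    (∑ z ∈ s, (X : ℝ[X]) ^ f z).coeff k = ((s.filter (fun z => f z = k)).card : ℝ) := by
  rw [Polynomial.finsetSum_coeff, Finset.card_filter]
  push_cast
  apply Finset.sum_congr rfl
  intro z _
  rw [Polynomial.coeff_X_pow]
  by_cases h : f z = k
  · rw [if_pos h, if_pos h.symm]
  · rw [if_neg h, if_neg (fun h' => h h'.symm)]

theorem poly_eq {n : ℕ} (hn : 1 ≤ n) :
    ∑ a ∈ PrSet (Finset.univ : Finset (Fin n)), (X : ℝ[X]) ^ (n.choose 2 + 1 - ∑ i, a i) =
      ∑ z ∈ Tset n, (X : ℝ[X]) ^ (inv' z.1 z.2) := by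
  apply Polynomial.eq_of_infinite_eval_eq
  apply Set.Infinite.mono _ (Set.Ioi_infinite (1 : ℝ))
  intro q hq
  rw [Set.mem_Ioi] at hq
  rw [Set.mem_ofPred_eq]
  have hq0 : (0 : ℝ) < q := by linarith
  rw [Polynomial.eval_finsetSum, Polynomial.eval_finsetSum]
  simp only [Polynomial.eval_pow, Polynomial.eval_X]
  have h1 : ∑ a ∈ PrSet (Finset.univ : Finset (Fin n)), q ^ (n.choose 2 + 1 - ∑ i, a i) =
      Rp q (Finset.univ : Finset (Fin n)) := by
    unfold Rp PrS
    rw [Finset.card_univ, Fintype.card_fin, Finset.mul_sum]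
    apply Finset.sum_congr rfl
    intro a ha
    have hle := spherical_sum_le hn ((spherical_iff hn a).2 (mem_PrSet.1 ha).1)
    obtain ⟨m, hm⟩ := Nat.exists_eq_add_of_le hle
    rw [hm, Nat.add_sub_cancel_left, pow_add, one_div_pow]
    field_simp
  have h2 : ∑ z ∈ Tset n, q ^ (inv' z.1 z.2) = Ut q (Finset.univ : Finset (Fin n)) := by
    unfold Ut Tset
    rw [Finset.sum_sigma]
    apply Finset.sum_congr rfl
    intro r hr
    exact detach_sum q _ hr
  rw [h1, h2]
  exact (Ut_eq_Rp hq n _ (by simp) ⟨⟨0, hn⟩, Finset.mem_univ _⟩).symm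

/-- **Spherical parking functions by degree and surface inversions.** For all `n ≥ 1` and `k ≥ 0`,
the number of spherical parking functions of length `n` of degree `C(n,2) - k + 1` equals the number
of uprooted trees on `n` labelled vertices with exactly `k` surface inversions. -/
theorem result : ∀ n : ℕ, 1 ≤ n → ∀ k : ℕ,
    Nat.card {a : Fin n → ℕ // Spherical a ∧ ∑ i, a i + k = n.choose 2 + 1} =
      Nat.card {T : RootedTree n // T.Uprooted ∧ T.surfaceInversions = k} := by
  intro n hn k
  rw [card_trees]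
  have h1 : Nat.card {a : Fin n → ℕ // Spherical a ∧ ∑ i, a i + k = n.choose 2 + 1} =
      ((PrSet (Finset.univ : Finset (Fin n))).filter
        (fun a => n.choose 2 + 1 - ∑ i, a i = k)).card := by
    rw [Nat.subtype_card]
    intro a
    rw [Finset.mem_filter, mem_PrSet, ← spherical_iff hn]
    constructor
    · rintro ⟨⟨h1, -⟩, h2⟩
      have := spherical_sum_le hn h1
      exact ⟨h1, by omega⟩
    · rintro ⟨h1, h2⟩
      exact ⟨⟨h1, fun x hx => absurd (Finset.mem_univ x) hx⟩, by omega⟩
  rw [h1]
  have h2 := congrArg (fun P => Polynomial.coeff P k) (poly_eq hn)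
  simp only [coeff_sum] at h2
  exact_mod_cast h2

end Pool.Agent.Results.MP_dc922b_co.SurfaceInversions
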